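import Pool.Agent.Helper73.SM.GoalsU

/-!
# Project CU (MP_c307ca_nt), packet UPR: every good fraction is a Pade approximant
-/

set_option autoImplicit false

namespace Pool.Agent.Helper95.SM

open Finset Pool.Agent.Helper73.SM

theorem log72_bounds : 4 ≤ Real.log 72 ∧ Real.log 72 ≤ 4.4 := by
  have h2 := Real.log_two_gt_d9
  have h2' := Real.log_two_lt_d9
  constructor
  · have h : Real.log (2 ^ 6 : ℝ) ≤ Real.log 72 := Real.log_le_log (by norm_num) (by norm_num)
    rw [Real.log_pow] at h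
    push_cast at h
    linarith
  · have h : Real.log ((72 : ℝ) ^ 7) ≤ Real.log (2 ^ 44 : ℝ) :=
      Real.log_le_log (by norm_num) (by norm_num)
    rw [Real.log_pow, Real.log_pow] at h
    push_cast at h
    linarith

/-- the exponent is small -/
theorem exponent_small {x : ℝ} (hx : (2 : ℝ) ^ 60 ≤ x) {R : ℝ} (hR : 0 < R)
    (hRe : R ≤ Real.exp (Real.log x ^ 2 / 10)) (m : ℕ) (hm : x / 4 * (x / 72) ^ m ≤ R) :
    (72 : ℝ) ^ (2 * (m + 1)) ≤ x := by
  have hx0 : 0 < x := lt_of_lt_of_le (by norm_num) hx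
  obtain ⟨hl4, hl5⟩ := log72_bounds
  have hL : 41 ≤ Real.log x := by
    have h1 : Real.log (2 ^ 60 : ℝ) ≤ Real.log x := Real.log_le_log (by norm_num) hx
    rw [Real.log_pow] at h1
    push_cast at h1
    have := Real.log_two_gt_d9
    linarith
  have h4 : Real.log 4 ≤ Real.log 72 := Real.log_le_log (by norm_num) (by norm_num)
  have h40 : 0 ≤ Real.log 4 := Real.log_nonneg (by norm_num)
  have h5 : Real.log x - Real.log 4 + m * (Real.log x - Real.log 72) ≤ Real.log x ^ 2 / 10 := by
    have h6 : Real.log (x / 4 * (x / 72) ^ m) ≤ Real.log R := Real.log_le_log (by positivity) hm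
    rw [Real.log_mul (by positivity) (by positivity), Real.log_pow,
      Real.log_div hx0.ne' (by norm_num), Real.log_div hx0.ne' (by norm_num)] at h6
    have h7 : Real.log R ≤ Real.log x ^ 2 / 10 := by
      rw [Real.log_le_iff_le_exp hR]
      exact hRe
    linarith
  have h8 : 2 * ((m : ℝ) + 1) * Real.log 72 ≤ Real.log x := by
    by_contra hcon
    rw [not_le] at hcon
    have h9 : 0 < Real.log x - Real.log 72 := by linarith
    have h10 : (Real.log x - 2 * Real.log 72) * (Real.log x - Real.log 72) <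
        2 * m * Real.log 72 * (Real.log x - Real.log 72) :=
      mul_lt_mul_of_pos_right (by linarith) h9
    have h11 : 2 * Real.log 72 * (m * (Real.log x - Real.log 72)) ≤
        2 * Real.log 72 * (Real.log x ^ 2 / 10 - Real.log x + Real.log 4) :=
      mul_le_mul_of_nonneg_left (by linarith) (by linarith)
    have h12 : Real.log x ^ 2 * (1 - Real.log 72 / 5) < Real.log 72 * Real.log x := by
      nlinarith
    have h13 : Real.log x * (1 - Real.log 72 / 5) < Real.log 72 := by
      have hLp : 0 < Real.log x := by linarith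
      by_contra hc
      rw [not_lt] at hc
      have := mul_le_mul_of_nonneg_left hc hLp.le
      nlinarith
    nlinarith
  have h14 : Real.log ((72 : ℝ) ^ (2 * (m + 1))) ≤ Real.log x := by
    rw [Real.log_pow]
    push_cast
    linarith
  exact (Real.log_le_log_iff (by positivity) hx0).mp h14

theorem goalUPR (hUSZ : StmtUSZ) : StmtUPR := by
  refine ⟨2 ^ 60, by norm_num, ?_⟩
  intro N hN c P R hc hc16 hR hRe hlt
  have hN2 : 2 ≤ N := le_trans (by norm_num) hN
  obtain ⟨x, hx⟩ : ∃ x : ℝ, x = (N : ℝ) := ⟨_, rfl⟩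
  have hx60 : (2 : ℝ) ^ 60 ≤ x := by
    rw [hx]; exact_mod_cast hN
  have hx0 : 0 < x := lt_of_lt_of_le (by norm_num) hx60
  have hx2 : 2 ≤ x := le_trans (by norm_num) hx60
  have hR1 : (1 : ℝ) ≤ R := by exact_mod_cast hR
  have hR0 : (0 : ℝ) < R := by linarith
  rw [← hx] at hRe hlt
  -- the least exponent
  have hex : ∃ n : ℕ, (R : ℝ) < x / 4 * (x / 72) ^ n := by
    have h1 : 1 < x / 72 := by
      rw [lt_div_iff₀ (by norm_num)]
      exact lt_of_lt_of_le (by norm_num) hx60
    obtain ⟨n, hn⟩ := pow_unbounded_of_one_lt ((R : ℝ) / (x / 4)) h1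
    refine ⟨n, ?_⟩
    rw [div_lt_iff₀ (by positivity)] at hn
    linarith
  classical
  obtain ⟨n, hn⟩ : ∃ n : ℕ, n = Nat.find hex := ⟨_, rfl⟩
  have hn1 : (R : ℝ) < x / 4 * (x / 72) ^ n := by
    rw [hn]; exact Nat.find_spec hex
  have hn2 : ∀ m, m < n → x / 4 * (x / 72) ^ m ≤ R := by
    intro m hm
    rw [hn] at hm
    exact not_lt.mp (Nat.find_min hex hm)
  -- the size of the exponent
  have hsize : (72 : ℝ) ^ (2 * n) ≤ x := by
    rcases Nat.eq_zero_or_pos n with h0 | h0
    · rw [h0]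
      norm_num
      linarith
    · obtain ⟨m, rfl⟩ : ∃ m, n = m + 1 := ⟨n - 1, by omega⟩
      exact exponent_small hx60 hR0 hRe m (hn2 m (by omega))
  refine ⟨n, by rw [← hx]; exact hsize, ?_⟩
  have hqpos := hUSZ.pos n N hN2
  have hqle := hUSZ.le n N hN2
  have hrem := hUSZ.rem n N hN2
  rw [← hx] at hqle hrem
  obtain ⟨q, hq⟩ : ∃ q : ℤ, q = PZ (-1) n (N : ℤ) := ⟨_, rfl⟩
  obtain ⟨p, hp⟩ : ∃ p : ℤ, p = PZ 1 n (N : ℤ) := ⟨_, rfl⟩
  rw [← hq] at hqpos hqle hrem ⊢
  rw [← hp] at hrem ⊢
  have hq1 : (1 : ℝ) ≤ q := by exact_mod_cast hqpos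
  obtain ⟨D, hD⟩ : ∃ D : ℝ, D = |(P : ℝ) - xi N * R| := ⟨_, rfl⟩
  rw [← hD] at hlt
  have hD0 : 0 ≤ D := by rw [hD]; exact abs_nonneg _
  -- first part
  have hA : (q : ℝ) * D < 1 / 2 := by
    have h1 : (q : ℝ) * D ≤ (72 * x) ^ n * D := mul_le_mul_of_nonneg_right hqle hD0
    refine lt_of_le_of_lt h1 ?_
    rcases Nat.eq_zero_or_pos n with h0 | h0
    · rw [h0, pow_zero, one_mul]
      have h2 : D ≤ R * D := by nlinarith
      have h3 : c / x ≤ 1 / 32 := by
        rw [div_le_iff₀ hx0]
        linarith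
      linarith
    · obtain ⟨m, rfl⟩ : ∃ m, n = m + 1 := ⟨n - 1, by omega⟩
      have h2 := hn2 m (by omega)
      have ha : (0 : ℝ) < 72 ^ m := by positivity
      have hy : (0 : ℝ) < x ^ m := by positivity
      obtain ⟨a, haa⟩ : ∃ a : ℝ, a = 72 ^ m := ⟨_, rfl⟩
      obtain ⟨y, hyy⟩ : ∃ y : ℝ, y = x ^ m := ⟨_, rfl⟩
      have hs : 5184 * a ^ 2 ≤ x := by
        have : (72 : ℝ) ^ (2 * (m + 1)) = 5184 * a ^ 2 := by
          rw [haa]
          rw [show 2 * (m + 1) = m * 2 + 2 by ring, pow_add, pow_mul]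
          norm_num
          ring
        linarith
      rw [div_pow, ← haa, ← hyy] at h2
      have h3 : (72 * x) ^ (m + 1) = 72 * x * a * y := by
        rw [pow_succ, mul_pow, ← haa, ← hyy]
        ring
      rw [h3]
      rw [← haa] at ha
      rw [← hyy] at hy
      have h4 : x * y ≤ 4 * a * R := by
        have h5 : x / 4 * (y / a) = x * y / (4 * a) := by
          field_simp
        rw [h5, div_le_iff₀ (by positivity)] at h2
        linarith
      -- 1296 a y ≤ R
      have h6 : 1296 * a * y ≤ R := by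
        have h7 : 5184 * a ^ 2 * y ≤ 4 * a * R := by nlinarith
        have h8 : (4 * a) * (1296 * a * y) ≤ (4 * a) * R := by nlinarith
        exact le_of_mul_le_mul_left h8 (by positivity)
      -- R D < c / x
      have h9 : x * (R * D) < c := by
        rw [lt_div_iff₀ hx0] at hlt
        linarith
      -- conclusion
      by_contra hcon
      rw [not_lt] at hcon
      have h10 : 1 / 2 * R ≤ 72 * x * a * y * D * R := mul_le_mul_of_nonneg_right hcon hR0.le
      have h11 : 72 * x * a * y * D * R ≤ 72 * a * y * c := by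
        have : 72 * x * a * y * D * R = 72 * a * y * (x * (R * D)) := by ring
        rw [this]
        exact mul_le_mul_of_nonneg_left h9.le (by positivity)
      have h12 : 72 * a * y * c ≤ 72 * a * y * (1 / 16) :=
        mul_le_mul_of_nonneg_left hc16 (by positivity)
      have h13 : 0 < a * y := by positivity
      nlinarith
  -- second part
  have hB : (R : ℝ) * |(p : ℝ) - xi N * q| < 1 / 2 := by
    have h1 : (R : ℝ) * |(p : ℝ) - xi N * q| ≤ R * (2 / x * (72 / x) ^ n) :=
      mul_le_mul_of_nonneg_left hrem hR0.le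
    refine lt_of_le_of_lt h1 ?_
    have h2 : (72 / x) ^ n * (x / 72) ^ n = 1 := by
      rw [← mul_pow]
      rw [show 72 / x * (x / 72) = 1 by field_simp]
      exact one_pow n
    have h3 : 0 < (72 / x) ^ n := by positivity
    have h4 : (R : ℝ) * (2 / x * (72 / x) ^ n) < x / 4 * (x / 72) ^ n * (2 / x * (72 / x) ^ n) :=
      mul_lt_mul_of_pos_right hn1 (by positivity)
    have h5 : x / 4 * (x / 72) ^ n * (2 / x * (72 / x) ^ n) = 1 / 2 := by
      calc x / 4 * (x / 72) ^ n * (2 / x * (72 / x) ^ n)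
          = (x / 4 * (2 / x)) * ((72 / x) ^ n * (x / 72) ^ n) := by ring
        _ = 1 / 2 := by rw [h2]; field_simp; norm_num
    linarith
  -- the integer
  have hC : |(P : ℝ) * q - R * p| < 1 := by
    have h1 : (P : ℝ) * q - R * p = q * (P - xi N * R) - R * (p - xi N * q) := by ring
    rw [h1]
    refine lt_of_le_of_lt (abs_sub _ _) ?_
    rw [abs_mul, abs_mul, abs_of_pos (by linarith : (0 : ℝ) < q), abs_of_pos hR0, ← hD]
    linarith
  have hZ : |P * q - (R : ℤ) * p| < 1 := by
    have : ((|P * q - (R : ℤ) * p| : ℤ) : ℝ) < 1 := by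
      push_cast
      exact hC
    exact_mod_cast this
  have := Int.abs_lt_one_iff.mp hZ
  linarith

end Pool.Agent.Helper95.SM
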